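import Pool.Agent.CurveDeg.Multi.PlaceSum

/-!
Additivity of the degree: `[E : κ(b)] = ∑ i, [E : κ(X i)]` for `b = ∏ i, (c - X i) / (c' - X i)`,
`c, c'` general.
-/

set_option autoImplicit false

namespace Pool.Agent.CurveDeg

open WithZero IntermediateField

variable {κ E : Type*} [Field κ] [Field E] [Algebra κ E]

/-- A normalised discrete valuation, trivial on `κ`. -/
def IsPl (κ : Type*) {E : Type*} [Field κ] [Field E] [Algebra κ E] (v : Valuation E ℤᵐ⁰) : Prop :=
  Function.Surjective v ∧ ∀ a : κ, a ≠ 0 → v (algebraMap κ E a) = 1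

lemma mem_zeroPl {v : Valuation E ℤᵐ⁰} {y : E} : v ∈ zeroPl κ y ↔ IsPl κ v ∧ v y < 1 :=
  ⟨fun h => ⟨⟨h.1, h.2.1⟩, h.2.2⟩, fun h => ⟨h.1.1, h.1.2, h.2⟩⟩

lemma transcendental_sub {X : E} (hX : Transcendental κ X) (c : κ) :
    Transcendental κ (algebraMap κ E c - X) := by
  intro h
  apply hX
  have h1 : IsAlgebraic κ (algebraMap κ E c - (algebraMap κ E c - X)) :=
    (isAlgebraic_algebraMap c).sub h
  rwa [sub_sub_cancel] at h1

lemma adjoin_sub (X : E) (c : κ) : κ⟮algebraMap κ E c - X⟯ = κ⟮X⟯ := by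
  apply le_antisymm
  · rw [adjoin_simple_le_iff]
    exact sub_mem (IntermediateField.algebraMap_mem _ _) (mem_adjoin_simple_self κ X)
  · rw [adjoin_simple_le_iff]
    have h1 : algebraMap κ E c - (algebraMap κ E c - X) ∈ κ⟮algebraMap κ E c - X⟯ :=
      sub_mem (IntermediateField.algebraMap_mem _ _) (mem_adjoin_simple_self κ _)
    rwa [sub_sub_cancel] at h1

lemma IsPl.log_nonneg_iff {v : Valuation E ℤᵐ⁰} {y : E} (hy : y ≠ 0) :
    0 < -log (v y) ↔ v y < 1 := by
  have h1 : v y ≠ 0 := (Valuation.ne_zero_iff v).2 hy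
  have h2 : v y = exp (log (v y)) := (exp_log h1).symm
  constructor
  · intro h
    rw [h2, ← exp_zero, exp_lt_exp]
    omega
  · intro h
    rw [h2, ← exp_zero, exp_lt_exp] at h
    omega

lemma log_prod' {ι : Type*} (s : Finset ι) (f : ι → ℤᵐ⁰) (hf : ∀ i ∈ s, f i ≠ 0) :
    log (∏ i ∈ s, f i) = ∑ i ∈ s, log (f i) := by
  classical
  induction s using Finset.induction_on with
  | empty => simp
  | insert a s ha ih =>
    rw [Finset.prod_insert ha, Finset.sum_insert ha, log_mul (hf a (Finset.mem_insert_self a s))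
      (Finset.prod_ne_zero_iff.2 fun i hi => hf i (Finset.mem_insert_of_mem hi)),
      ih fun i hi => hf i (Finset.mem_insert_of_mem hi)]

section

variable [CharZero κ] [IsAlgClosed κ]

omit [CharZero κ] in
lemma algebraic_eq {y : E} (hy : IsAlgebraic κ y) : ∃ a : κ, algebraMap κ E a = y := by
  have h1 := minpoly.irreducible hy.isIntegral
  exact minpoly.mem_range_of_degree_eq_one κ y (IsAlgClosed.degree_eq_one_of_irreducible κ h1)

lemma finite_zeroPl (hfin : ∀ y : E, Transcendental κ y → FiniteDimensional κ⟮y⟯ E) {y : E}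
    (hy : y ≠ 0) : (zeroPl κ y).Finite := by
  by_cases ht : Transcendental κ y
  · have := hfin y ht
    exact (finrank_eq_sum ht).1
  · obtain ⟨a, rfl⟩ := algebraic_eq (not_not.1 ht)
    convert Set.finite_empty
    rw [Set.eq_empty_iff_forall_notMem]
    rintro v ⟨_, h1, h2⟩
    rw [h1 a (by rintro rfl; exact hy (map_zero _))] at h2
    exact lt_irrefl _ h2

/-- For all but finitely many `c` there is no place at which `c - X i` and `c' - X j` vanish. -/
theorem finite_bad (hfin : ∀ y : E, Transcendental κ y → FiniteDimensional κ⟮y⟯ E) {ι : Type*}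
    [Finite ι] (X : ι → E) (c' : κ) (hc' : ∀ i, algebraMap κ E c' - X i ≠ 0) :
    {c : κ | ∃ i j, ∃ v : Valuation E ℤᵐ⁰, IsPl κ v ∧ v (algebraMap κ E c' - X j) < 1 ∧
      v (algebraMap κ E c - X i) < 1}.Finite := by
  have h1 : {c : κ | ∃ i j, ∃ v : Valuation E ℤᵐ⁰, IsPl κ v ∧ v (algebraMap κ E c' - X j) < 1 ∧
      v (algebraMap κ E c - X i) < 1} ⊆ ⋃ i, ⋃ j, ⋃ v ∈ zeroPl κ (algebraMap κ E c' - X j),
        {c : κ | IsPl κ v ∧ v (algebraMap κ E c - X i) < 1} := by
    rintro c ⟨i, j, v, hv, h1, h2⟩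
    simp only [Set.mem_iUnion]
    exact ⟨i, j, v, mem_zeroPl.2 ⟨hv, h1⟩, hv, h2⟩
  refine Set.Finite.subset ?_ h1
  refine Set.finite_iUnion fun i => Set.finite_iUnion fun j => ?_
  refine (finite_zeroPl hfin (hc' j)).biUnion fun v _ => ?_
  refine Set.Subsingleton.finite ?_
  rintro c ⟨hv, h1⟩ d ⟨_, h2⟩
  by_contra hne
  have h3 : v (algebraMap κ E (c - d)) = 1 := hv.2 _ (sub_ne_zero.2 hne)
  have h4 : algebraMap κ E (c - d) = (algebraMap κ E c - X i) - (algebraMap κ E d - X i) := by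
    rw [map_sub]; ring
  have h5 : v ((algebraMap κ E c - X i) - (algebraMap κ E d - X i)) < 1 := v.map_sub_lt h1 h2
  rw [← h4, h3] at h5
  exact lt_irrefl _ h5

omit [CharZero κ] [IsAlgClosed κ] in
lemma sum_zeroPl {Z : Finset (Valuation E ℤᵐ⁰)} (hZ : ∀ v ∈ Z, IsPl κ v) {y : E} (hy : y ≠ 0)
    (hyZ : zeroPl κ y ⊆ Z) :
    ∑ᶠ v ∈ zeroPl κ y, -log (v y) = ∑ v ∈ Z, max 0 (-log (v y)) := by
  classical
  have hf : (zeroPl κ y).Finite := Z.finite_toSet.subset hyZ
  rw [finsum_mem_eq_finite_toFinset_sum _ hf]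
  have h1 : hf.toFinset ⊆ Z := by
    intro v hv
    exact hyZ (hf.mem_toFinset.1 hv)
  rw [← Finset.sum_subset h1 (f := fun v => max 0 (-log (v y)))]
  · refine Finset.sum_congr rfl fun v hv => ?_
    have h2 := (mem_zeroPl.1 (hf.mem_toFinset.1 hv)).2
    exact (max_eq_right ((IsPl.log_nonneg_iff hy).2 h2).le).symm
  · intro v hv hv'
    have h2 : ¬ v y < 1 := fun h => hv' (hf.mem_toFinset.2 (mem_zeroPl.2 ⟨hZ v hv, h⟩))
    exact max_eq_left (not_lt.1 fun h => h2 ((IsPl.log_nonneg_iff hy).1 h))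

/-- **Additivity of the degree.** -/
theorem finrank_prod (hfin : ∀ y : E, Transcendental κ y → FiniteDimensional κ⟮y⟯ E) {ι : Type*}
    [Fintype ι] (X : ι → E) (c c' : κ)
    (hc : ∀ i, algebraMap κ E c - X i ≠ 0) (hc' : ∀ i, algebraMap κ E c' - X i ≠ 0)
    (hdis : ∀ i j, ∀ v : Valuation E ℤᵐ⁰, IsPl κ v → v (algebraMap κ E c' - X j) < 1 →
      ¬ v (algebraMap κ E c - X i) < 1)
    (hb : Transcendental κ (∏ i, (algebraMap κ E c - X i) / (algebraMap κ E c' - X i))) :
    (Module.finrank κ⟮∏ i, (algebraMap κ E c - X i) / (algebraMap κ E c' - X i)⟯ E : ℤ) =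
      ∑ i, open Classical in if Transcendental κ (X i) then (Module.finrank κ⟮X i⟯ E : ℤ) else 0 := by
  classical
  set b := ∏ i, (algebraMap κ E c - X i) / (algebraMap κ E c' - X i) with hbdef
  have hb0 : b ≠ 0 := Finset.prod_ne_zero_iff.2 fun i _ => div_ne_zero (hc i) (hc' i)
  have hfb := hfin b hb
  rw [(finrank_eq_sum hb).2]
  have hZf : ((zeroPl κ b) ∪ ⋃ i, zeroPl κ (algebraMap κ E c - X i)).Finite :=
    (finite_zeroPl hfin hb0).union (Set.finite_iUnion fun i => finite_zeroPl hfin (hc i))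
  set Z := hZf.toFinset with hZdef
  have hZ : ∀ v ∈ Z, IsPl κ v := by
    intro v hv
    rw [hZdef, Set.Finite.mem_toFinset] at hv
    rcases hv with hv | hv
    · exact (mem_zeroPl.1 hv).1
    · obtain ⟨i, hi⟩ := Set.mem_iUnion.1 hv
      exact (mem_zeroPl.1 hi).1
  rw [sum_zeroPl hZ hb0 (by
    intro v hv
    rw [hZdef, Set.Finite.coe_toFinset]
    exact Or.inl hv)]
  have key : ∀ v ∈ Z, max 0 (-log (v b)) = ∑ i, max 0 (-log (v (algebraMap κ E c - X i))) := by
    intro v hv
    have hpl := hZ v hv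
    have hle1 : ∀ a : κ, v (algebraMap κ E a) ≤ 1 := by
      intro a
      by_cases ha : a = 0
      · rw [ha, map_zero, map_zero]; exact zero_le
      · exact (hpl.2 a ha).le
    -- one factor
    have h1 : ∀ i, -log (v ((algebraMap κ E c - X i) / (algebraMap κ E c' - X i))) =
        max 0 (-log (v (algebraMap κ E c - X i))) - max 0 (-log (v (algebraMap κ E c' - X i))) := by
      intro i
      have hv1 : v (algebraMap κ E c - X i) ≠ 0 := (Valuation.ne_zero_iff v).2 (hc i)
      have hv2 : v (algebraMap κ E c' - X i) ≠ 0 := (Valuation.ne_zero_iff v).2 (hc' i)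
      rw [map_div₀, log_div hv1 hv2]
      by_cases hX : v (X i) ≤ 1
      · have h2 : v (algebraMap κ E c - X i) ≤ 1 := v.map_sub_le (hle1 c) hX
        have h3 : v (algebraMap κ E c' - X i) ≤ 1 := v.map_sub_le (hle1 c') hX
        have h4 : log (v (algebraMap κ E c - X i)) ≤ 0 := by
          rw [← exp_le_exp, exp_log hv1, exp_zero]; exact h2
        have h5 : log (v (algebraMap κ E c' - X i)) ≤ 0 := by
          rw [← exp_le_exp, exp_log hv2, exp_zero]; exact h3
        rw [max_eq_right (by omega), max_eq_right (by omega)]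
        ring
      · have hX' : 1 < v (X i) := not_le.1 hX
        have h2 : v (algebraMap κ E c - X i) = v (X i) :=
          v.map_sub_eq_of_lt_right ((hle1 c).trans_lt hX')
        have h3 : v (algebraMap κ E c' - X i) = v (X i) :=
          v.map_sub_eq_of_lt_right ((hle1 c').trans_lt hX')
        rw [h2, h3]
        ring
    have h2 : -log (v b) = ∑ i, -log (v ((algebraMap κ E c - X i) / (algebraMap κ E c' - X i))) := by
      rw [hbdef, map_prod, log_prod' _ _ fun i _ => (Valuation.ne_zero_iff v).2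
        (div_ne_zero (hc i) (hc' i)), Finset.sum_neg_distrib]
    rw [h2, Finset.sum_congr rfl fun i _ => h1 i, Finset.sum_sub_distrib]
    by_cases hex : ∃ j, v (algebraMap κ E c' - X j) < 1
    · obtain ⟨j, hj⟩ := hex
      have h3 : ∀ i, max 0 (-log (v (algebraMap κ E c - X i))) = 0 := fun i =>
        max_eq_left (not_lt.1 fun h => hdis i j v hpl hj ((IsPl.log_nonneg_iff (hc i)).1 h))
      rw [Finset.sum_congr rfl fun i _ => h3 i, Finset.sum_const_zero, zero_sub]
      refine max_eq_left ?_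
      rw [neg_nonpos]
      exact Finset.sum_nonneg fun i _ => le_max_left _ _
    · push Not at hex
      have h3 : ∀ i, max 0 (-log (v (algebraMap κ E c' - X i))) = 0 := fun i =>
        max_eq_left (not_lt.1 fun h => (hex i).not_gt ((IsPl.log_nonneg_iff (hc' i)).1 h))
      rw [Finset.sum_congr rfl fun i _ => h3 i, Finset.sum_const_zero, sub_zero]
      exact max_eq_right (Finset.sum_nonneg fun i _ => le_max_left _ _)
  rw [Finset.sum_congr rfl key, Finset.sum_comm]
  refine Finset.sum_congr rfl fun i _ => ?_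
  rw [← sum_zeroPl hZ (hc i) (by
    intro v hv
    rw [hZdef, Set.Finite.coe_toFinset]
    exact Or.inr (Set.mem_iUnion.2 ⟨i, hv⟩))]
  split_ifs with ht
  · have ht' := transcendental_sub ht c
    have := hfin _ ht'
    rw [← (finrank_eq_sum ht').2, adjoin_sub]
  · obtain ⟨a, ha⟩ := algebraic_eq (not_not.1 ht)
    have : zeroPl κ (algebraMap κ E c - X i) = ∅ := by
      rw [Set.eq_empty_iff_forall_notMem]
      rintro v ⟨_, h1, h2⟩
      have h3 := hc i
      rw [← ha, ← map_sub] at h2 h3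
      rw [h1 _ (by intro h; rw [h, map_zero] at h3; exact h3 rfl)] at h2
      exact lt_irrefl _ h2
    rw [this, finsum_mem_empty]

end

end Pool.Agent.CurveDeg
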