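import Mathlib

/-!
A countable field of characteristic zero embeds into `ℂ`.
-/

set_option autoImplicit false

namespace Pool.Agent.CurveDeg

open MvPolynomial

/-- A countable field of characteristic zero embeds into `ℂ`. -/
theorem exists_embedding (K : Type) [Field K] [CharZero K] [Countable K] : Nonempty (K →+* ℂ) := by
  obtain ⟨s, hs⟩ := exists_isTranscendenceBasis ℚ K
  obtain ⟨t, ht⟩ := exists_isTranscendenceBasis ℚ ℂ
  have hcard := IsAlgClosed.cardinal_eq_cardinal_transcendence_basis_of_aleph0_lt' _ ht
    (by simp) (by rw [Cardinal.mk_complex]; exact Cardinal.aleph0_lt_continuum)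
  have hinf : Infinite t := by
    rw [Cardinal.infinite_iff, ← hcard, Cardinal.mk_complex]
    exact Cardinal.aleph0_lt_continuum.le
  obtain ⟨f, hf⟩ := exists_injective_nat s
  let g : s → t := fun i => Infinite.natEmbedding t (f i)
  have hg : Function.Injective g := (Infinite.natEmbedding t).injective.comp hf
  have hind : AlgebraicIndependent ℚ fun i => (g i : ℂ) := ht.1.comp g hg
  let A := Algebra.adjoin ℚ (Set.range fun i : s => (i : K))
  let ψ : A →+* ℂ := (aeval (fun i : s => (g i : ℂ)) : MvPolynomial s ℚ →ₐ[ℚ] ℂ).toRingHom.comp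
    (hs.1.aevalEquiv.symm : A ≃ₐ[ℚ] MvPolynomial s ℚ).toRingEquiv.toRingHom
  let _ : Algebra A ℂ := ψ.toAlgebra
  have h2 : FaithfulSMul A ℂ := by
    rw [faithfulSMul_iff_algebraMap_injective]
    have h4 : Function.Injective ψ := by
      intro a b hab
      exact (hs.1.aevalEquiv.symm).injective (hind hab)
    exact h4
  have h3 : Algebra.IsAlgebraic A K := hs.isAlgebraic
  exact ⟨(IsAlgClosed.lift (R := A) (S := K) (M := ℂ)).toRingHom⟩

end Pool.Agent.CurveDeg
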