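import Mathlib

/-!
Function fields of (at most) one variable.
-/

set_option autoImplicit false

namespace Pool.Agent.CurveDeg

open IntermediateField

/-- `E` is a finitely generated field over `κ` of transcendence degree at most one. -/
def OneVar (κ E : Type*) [Field κ] [Field E] [Algebra κ E] : Prop :=
  Algebra.EssFiniteType κ E ∧ Algebra.trdeg κ E ≤ 1

variable {κ E : Type*} [Field κ] [Field E] [Algebra κ E]

theorem OneVar.finite (h : OneVar κ E) {y : E} (hy : Transcendental κ y) :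
    FiniteDimensional κ⟮y⟯ E := by
  obtain ⟨h1, h2⟩ := h
  have hx : AlgebraicIndependent κ (fun _ : Unit => y) := algebraicIndependent_unique_type_iff.2 hy
  have hb : IsTranscendenceBasis κ (fun _ : Unit => y) :=
    hx.isTranscendenceBasis_of_lift_trdeg_le_of_finite (by simpa using h2)
  have h3 : Algebra.IsAlgebraic (adjoin κ (Set.range fun _ : Unit => y)) E := hb.isAlgebraic_field
  have h4 : Set.range (fun _ : Unit => y) = {y} := Set.range_const
  rw [h4] at h3
  have h5 : Algebra.EssFiniteType κ⟮y⟯ E := Algebra.EssFiniteType.of_comp κ κ⟮y⟯ E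
  obtain ⟨S, hS⟩ := fg_top κ⟮y⟯ E
  have h6 : FiniteDimensional κ⟮y⟯ (adjoin κ⟮y⟯ (S : Set E)) :=
    finiteDimensional_adjoin fun x _ => (h3.isAlgebraic x).isIntegral
  rw [hS] at h6
  exact Module.Finite.equiv (IntermediateField.topEquiv (F := κ⟮y⟯) (E := E)).toLinearEquiv

theorem OneVar.of_finite (b : E) [FiniteDimensional κ⟮b⟯ E] : OneVar κ E := by
  have h1 : Algebra.EssFiniteType κ κ⟮b⟯ := essFiniteType_iff.2 ⟨{b}, by simp⟩
  have h2 : Algebra.EssFiniteType κ⟮b⟯ E := inferInstance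
  refine ⟨Algebra.EssFiniteType.comp κ κ⟮b⟯ E, ?_⟩
  have h3 : Algebra.IsAlgebraic κ⟮b⟯ E := inferInstance
  have h4 : Algebra.IsAlgebraic (Algebra.adjoin κ ({b} : Set E)) E := by
    open scoped algebraAdjoinAdjoin in
    exact Algebra.IsAlgebraic.trans (Algebra.adjoin κ ({b} : Set E)) κ⟮b⟯ E
  have h5 := Algebra.IsAlgebraic.trdeg_le_cardinalMk κ ({b} : Set E)
  simpa using h5

theorem OneVar.ext {E₁ : Type*} [Field E₁] [Algebra κ E₁] [Algebra E E₁] [IsScalarTower κ E E₁]
    [FiniteDimensional E E₁] (h : OneVar κ E) : OneVar κ E₁ := by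
  obtain ⟨h1, h2⟩ := h
  refine ⟨Algebra.EssFiniteType.comp κ E E₁, ?_⟩
  have h3 := lift_trdeg_add_eq κ E (A := E₁)
  rw [show Algebra.trdeg E E₁ = 0 from trdeg_eq_zero, Cardinal.lift_zero,
    add_zero] at h3
  have h4 : Cardinal.lift (Algebra.trdeg κ E₁) ≤ 1 := by
    rw [← h3]
    simpa using h2
  simpa using h4

end Pool.Agent.CurveDeg
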