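import Pool.Agent.CurveDeg.Place

/-!
Specialisation over a valuation ring, with algebraically closed residue field.
-/

set_option autoImplicit false

namespace Pool.Agent.CurveDeg

open MvPolynomial

/-- The residue field of a valuation subring of an algebraically closed field is
algebraically closed. -/
theorem isAlgClosed_resField {K : Type*} [Field K] [IsAlgClosed K] (V : ValuationSubring K) :
    IsAlgClosed (IsLocalRing.ResidueField V) := by
  refine IsAlgClosed.of_exists_root _ fun p hp hirr => ?_
  obtain ⟨q, hq, hdeg, hmon⟩ := Polynomial.lifts_and_degree_eq_and_monic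
    (f := IsLocalRing.residue V) (p := p) (by
      rw [Polynomial.mem_lifts]
      exact Polynomial.map_surjective _ IsLocalRing.residue_surjective p) hp
  have hd : (q.map (algebraMap V K)).degree ≠ 0 := by
    rw [hmon.degree_map, hdeg]
    exact (Polynomial.degree_pos_of_irreducible hirr).ne'
  obtain ⟨x, hx⟩ := IsAlgClosed.exists_root (q.map (algebraMap V K)) hd
  have hint : IsIntegral V x := ⟨q, hmon, by
    rwa [Polynomial.IsRoot, Polynomial.eval_map] at hx⟩
  obtain ⟨y, hy⟩ := IsIntegrallyClosed.isIntegral_iff.mp hint
  refine ⟨IsLocalRing.residue V y, ?_⟩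
  have h1 : q.eval y = 0 := by
    apply IsFractionRing.injective V K
    rw [map_zero, ← Polynomial.eval_map_apply, hy]
    exact hx
  rw [← hq, Polynomial.eval_map_apply, h1, map_zero]

/-- The version of `exists_place` with an algebraically closed residue field. -/
theorem exists_place_closed {σ : Type} [Finite σ] {r : ℕ} (d : Fin r → ℕ) {K₀ L : Type} [Field K₀]
    [CharZero K₀] [Field L] [IsAlgClosed L] [Algebra K₀ L] (f : Fin r → MvPolynomial σ L)
    (hf : ∀ i, f i ∈ homogeneousSubmodule σ L (d i))
    (hgen : ∀ q : MvPolynomial (Σ i : Fin r, Mon σ (d i)) K₀, q ≠ 0 →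
      aeval (fun x => coeff x.2.1 (f x.1)) q ≠ 0)
    (g : Fin r → MvPolynomial σ K₀) (hg : ∀ i, g i ∈ homogeneousSubmodule σ K₀ (d i))
    (I : Ideal (MvPolynomial σ L)) (hI : Homog I) (hfI : ∀ i, f i ∈ I) :
    ∃ (κ : Type) (_ : Field κ) (_ : Algebra K₀ κ) (_ : CharZero κ)
      (_ : IsAlgClosed κ)
      (I₀ : Ideal (MvPolynomial σ κ)), Homog I₀ ∧ (∀ i, map (algebraMap K₀ κ) (g i) ∈ I₀) ∧
      ∀ k, hilb I₀ k = hilb I k := by
  classical
  let Θ := Σ i : Fin r, Mon σ (d i)
  let cv : Θ → L := fun x => coeff x.2.1 (f x.1)
  let φ : MvPolynomial Θ K₀ →ₐ[K₀] L := aeval cv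
  have hφ : Function.Injective φ := by
    rw [injective_iff_map_eq_zero]
    intro q hq
    by_contra h
    exact hgen q h hq
  let ψ : MvPolynomial Θ K₀ →ₐ[K₀] K₀ := aeval fun x => coeff x.2.1 (g x.1)
  -- the valuation ring
  let A : Subring L := φ.toRingHom.range
  let ε : MvPolynomial Θ K₀ ≃+* A := RingEquiv.ofBijective φ.toRingHom.rangeRestrict
    ⟨fun a b h => hφ (congrArg Subtype.val h), φ.toRingHom.rangeRestrict_surjective⟩
  let 𝔞 : Ideal A := (RingHom.ker ψ.toRingHom).comap ε.symm.toRingHom
  have h𝔞 : 𝔞 ≠ ⊤ := by
    rw [Ne, Ideal.eq_top_iff_one, Ideal.mem_comap, map_one, RingHom.mem_ker, map_one]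
    exact one_ne_zero
  obtain ⟨O, hAO, hnon⟩ := Ideal.image_subset_nonunits_valuationSubring 𝔞 h𝔞
  have hφO : ∀ q, φ q ∈ O := fun q => hAO ⟨q, rfl⟩
  have hψ : ∀ q, ψ q = 0 → φ q ∈ O.nonunits := by
    intro q hq
    refine hnon ⟨ε q, ?_, rfl⟩
    change ε.symm.toRingHom (ε q) ∈ RingHom.ker ψ.toRingHom
    have : ε.symm.toRingHom (ε q) = q := ε.symm_apply_apply q
    rw [this, RingHom.mem_ker]
    exact hq
  let j₀ : K₀ →+* O := (algebraMap K₀ L).codRestrict O.toSubring fun a => by
    have := hφO (C a)
    rwa [show φ (C a) = algebraMap K₀ L a from aeval_C _ _] at this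
  let κ := IsLocalRing.ResidueField O
  let alg : Algebra K₀ κ := ((IsLocalRing.residue O).comp j₀).toAlgebra
  have hchar : CharZero κ := by
    have h1 : Function.Injective (algebraMap K₀ κ) := (algebraMap K₀ κ).injective
    exact charZero_of_injective_algebraMap h1
  let inc : MvPolynomial σ O →+* MvPolynomial σ L := map (algebraMap O L)
  let red : MvPolynomial σ O →+* MvPolynomial σ κ := map (IsLocalRing.residue O)
  have hred : Function.Surjective red := map_surjective _ IsLocalRing.residue_surjective
  let J : Ideal (MvPolynomial σ O) := I.comap inc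
  have hJ : ∀ F ∈ J, ∀ k, homogeneousComponent k F ∈ J := by
    intro F hF k
    change inc (homogeneousComponent k F) ∈ I
    rw [show inc (homogeneousComponent k F) = homogeneousComponent k (inc F) from
      map_homogeneousComponent _ _ _]
    exact hI _ hF _
  have hmem : ∀ y, y ∈ J.map red ↔ ∃ F ∈ J, red F = y := fun y =>
    Ideal.mem_map_iff_of_surjective red hred
  refine ⟨κ, inferInstance, alg, hchar, isAlgClosed_resField O, J.map red, ?_, ?_, ?_⟩
  · intro y hy k
    rw [hmem] at hy ⊢
    obtain ⟨F, hF, rfl⟩ := hy
    exact ⟨homogeneousComponent k F, hJ F hF k, map_homogeneousComponent _ _ _⟩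
  · intro i
    rw [hmem]
    let wO : Mon σ (d i) → O := fun m => ⟨coeff m.1 (f i), by
      have := hφO (X ⟨i, m⟩)
      rwa [show φ (X ⟨i, m⟩) = coeff m.1 (f i) from aeval_X _ _] at this⟩
    refine ⟨form wO, ?_, ?_⟩
    · change inc (form wO) ∈ I
      have : inc (form wO) = f i := by
        rw [show inc (form wO) = form (fun m => algebraMap O L (wO m)) from map_form _ _]
        refine cf_inj (form_mem _) (hf i) ?_
        funext m
        rw [cf_apply, coeff_form]
        rfl
      rw [this]; exact hfI i
    · rw [show red (form wO) = form (fun m => IsLocalRing.residue O (wO m)) from map_form _ _]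
      refine cf_inj (form_mem _) ((show IsHomogeneous (g i) (d i) from hg i).map _) ?_
      funext m
      rw [cf_apply, cf_apply, coeff_form, coeff_map]
      have h1 : ψ (X ⟨i, m⟩ - C (coeff m.1 (g i))) = 0 := by
        rw [map_sub, show ψ (X ⟨i, m⟩) = coeff m.1 (g i) from aeval_X _ _,
          show ψ (C (coeff m.1 (g i))) = coeff m.1 (g i) from aeval_C _ _, sub_self]
      have h2 := hψ _ h1
      rw [map_sub, show φ (X ⟨i, m⟩) = coeff m.1 (f i) from aeval_X _ _,
          show φ (C (coeff m.1 (g i))) = algebraMap K₀ L (coeff m.1 (g i)) from aeval_C _ _] at h2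
      have h3 : ((wO m - j₀ (coeff m.1 (g i)) : O) : L) ∈ O.nonunits := h2
      rw [O.coe_mem_nonunits_iff, ← Ideal.Quotient.eq_zero_iff_mem] at h3
      have h4 : IsLocalRing.residue O (wO m - j₀ (coeff m.1 (g i))) = 0 := h3
      rw [map_sub, sub_eq_zero] at h4
      rw [h4]
      rfl
  · intro k
    have h1 := hilb_add_part (J.map red) k
    have h2 := hilb_add_part I k
    rw [finrank_homog] at h1 h2
    have h3 : Module.finrank κ (part (J.map red) k) = Module.finrank L (part I k) := by
      rw [← finrank_cf (k := k) (part (J.map red) k) inf_le_left,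
        ← finrank_cf (k := k) (part I k) inf_le_left, ← finrank_redSub O]
      have h4 : (part (J.map red) k).map (cf σ κ k) = redSub O ((part I k).map (cf σ L k)) := by
        apply le_antisymm
        · rintro _ ⟨y, hy, rfl⟩
          obtain ⟨hy1, hy2⟩ := mem_part.1 hy
          obtain ⟨F, hF, hFy⟩ := (hmem y).1 hy2
          have h5 : red (homogeneousComponent k F) = y := by
            rw [show red (homogeneousComponent k F) = homogeneousComponent k (red F) from
              map_homogeneousComponent _ _ _, hFy, homogeneousComponent_of_mem hy1, if_pos rfl]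
          refine ⟨fun m => coeff m.1 (homogeneousComponent k F), ?_, ?_⟩
          · refine ⟨inc (homogeneousComponent k F), mem_part.2 ⟨?_, hJ F hF k⟩, ?_⟩
            · exact IsHomogeneous.map (homogeneousComponent_isHomogeneous k F) _
            · funext m
              rw [cf_apply]
              exact coeff_map _ _ _
          · rw [← h5]
            funext m
            rw [cf_apply]
            exact (coeff_map _ _ _).symm
        · rintro _ ⟨w, ⟨q, hq, hqw⟩, rfl⟩
          obtain ⟨hq1, hq2⟩ := mem_part.1 hq
          have h5 : inc (form w) = q := by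
            rw [show inc (form w) = form (fun m => algebraMap O L (w m)) from map_form _ _]
            refine cf_inj (form_mem _) hq1 ?_
            rw [hqw]
            funext m
            rw [cf_apply, coeff_form]
            rfl
          refine ⟨red (form w), mem_part.2 ⟨?_, (hmem _).2 ⟨form w, ?_, rfl⟩⟩, ?_⟩
          · exact IsHomogeneous.map (show IsHomogeneous (form w) k from form_mem w) _
          · change inc (form w) ∈ I
            rw [h5]; exact hq2
          · rw [show red (form w) = form (fun m => IsLocalRing.residue O (w m)) from map_form _ _]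
            funext m
            rw [cf_apply, coeff_form]
      rw [h4]
    omega

end Pool.Agent.CurveDeg
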