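import Mathlib

/-!
For a function field `E` of one variable over an algebraically closed field `κ` and a transcendental
element `y`, the degree `[E : κ(y)]` is the number of zeros of `y`, counted with multiplicity.
-/

set_option autoImplicit false

namespace Pool.Agent.CurveDeg

open Polynomial IsDedekindDomain WithZero

/-- Two surjective valuations with values in `ℤᵐ⁰` agree if one valuation ring is contained in the
other. -/
lemma eq_of_le_one {E : Type*} [Field E] {v w : Valuation E ℤᵐ⁰} (hv : Function.Surjective v)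
    (hw : Function.Surjective w) (h : ∀ z, v z ≤ 1 → w z ≤ 1) : v = w := by
  have h1 : ∀ z, v z = 1 → w z = 1 := by
    intro z hz
    refine le_antisymm (h z hz.le) ?_
    have hz0 : z ≠ 0 := by
      rintro rfl
      rw [map_zero] at hz
      exact zero_ne_one hz
    have h2 := h z⁻¹ (by rw [map_inv₀, hz, inv_one])
    have h3 : w z * w z⁻¹ = 1 := by rw [← map_mul, mul_inv_cancel₀ hz0, map_one]
    calc (1 : ℤᵐ⁰) = w z * w z⁻¹ := h3.symm
      _ ≤ w z * 1 := mul_le_mul_right h2 _
      _ = w z := mul_one _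
  obtain ⟨π, hπ⟩ := hv (exp (-1 : ℤ))
  have hπ0 : π ≠ 0 := by
    rintro rfl
    rw [map_zero] at hπ
    exact exp_ne_zero hπ.symm
  have hwπ0 : w π ≠ 0 := (Valuation.ne_zero_iff _).2 hπ0
  set s : ℤ := log (w π) with hs
  have hwπ : w π = exp s := (exp_log hwπ0).symm
  have hs0 : s ≤ 0 := by
    have h2 : w π ≤ 1 := h π (by rw [hπ, ← exp_zero, exp_le_exp]; norm_num)
    rw [hwπ, ← exp_zero, exp_le_exp] at h2
    exact h2
  have key : ∀ z, z ≠ 0 → ∀ m : ℤ, v z = exp m → w z = exp (-m * s) := by
    intro z hz m hm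
    have h2 : v (z * π ^ m) = 1 := by
      rw [map_mul, map_zpow₀, hm, hπ, ← exp_zsmul, ← exp_add, ← exp_zero]
      congr 1
      simp
    have h3 := h1 _ h2
    rw [map_mul, map_zpow₀, hwπ, ← exp_zsmul] at h3
    have h4 : w z * exp (m • s) * exp (-m * s) = exp (-m * s) := by rw [h3, one_mul]
    rw [mul_assoc, ← exp_add] at h4
    rw [← h4]
    have : m • s + -m * s = 0 := by rw [smul_eq_mul]; ring
    rw [this, exp_zero, mul_one]
  obtain ⟨τ, hτ⟩ := hw (exp (-1 : ℤ))
  have hτ0 : τ ≠ 0 := by
    rintro rfl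
    rw [map_zero] at hτ
    exact exp_ne_zero hτ.symm
  have hvτ0 : v τ ≠ 0 := (Valuation.ne_zero_iff _).2 hτ0
  have h5 := key τ hτ0 (log (v τ)) (exp_log hvτ0).symm
  rw [hτ, exp_inj] at h5
  have hs1 : s = -1 := by
    have h6 : s ∣ 1 := ⟨log (v τ), by linarith⟩
    rcases Int.isUnit_iff.1 (isUnit_of_dvd_one h6) with h7 | h7
    · omega
    · exact h7
  ext z
  by_cases hz : z = 0
  · rw [hz, map_zero, map_zero]
  · have h6 := key z hz (log (v z)) (exp_log ((Valuation.ne_zero_iff _).2 hz)).symm
    rw [h6, hs1]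
    rw [show -log (v z) * (-1 : ℤ) = log (v z) by ring]
    exact (exp_log ((Valuation.ne_zero_iff v).2 hz)).symm

/-- The normalised discrete valuations of `E`, trivial on `κ`, at which `y` vanishes. -/
def zeroPl (κ : Type*) {E : Type*} [Field κ] [Field E] [Algebra κ E] (y : E) :
    Set (Valuation E ℤᵐ⁰) :=
  {v | Function.Surjective v ∧ (∀ a : κ, a ≠ 0 → v (algebraMap κ E a) = 1) ∧ v y < 1}

attribute [local instance] FractionRing.liftAlgebra

/-- The version over the polynomial ring. -/
theorem rank_eq_sum {κ : Type*} [Field κ] [CharZero κ] [IsAlgClosed κ] {E : Type*} [Field E]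
    [Algebra κ E] [Algebra κ[X] E] [IsScalarTower κ κ[X] E]
    [FaithfulSMul κ[X] E] [FiniteDimensional (FractionRing κ[X]) E] :
    (zeroPl κ (algebraMap κ[X] E X)).Finite ∧ (Module.finrank κ[X] E : ℤ) =
      ∑ᶠ v ∈ zeroPl κ (algebraMap κ[X] E X), -log (v (algebraMap κ[X] E X)) := by
  classical
  set D := integralClosure κ[X] E with hD
  have hfin : Module.Finite κ[X] D :=
    IsIntegralClosure.finite κ[X] (FractionRing κ[X]) E D
  have hded : IsDedekindDomain D := integralClosure.isDedekindDomain κ[X] (FractionRing κ[X]) E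
  have hfrac : IsFractionRing D E :=
    integralClosure.isFractionRing_of_finite_extension (FractionRing κ[X]) E
  have hinj : Function.Injective (algebraMap κ[X] D) := by
    have h1 : Function.Injective (algebraMap κ[X] E) := FaithfulSMul.algebraMap_injective _ _
    rw [IsScalarTower.algebraMap_eq κ[X] D E] at h1
    rw [RingHom.coe_comp] at h1
    exact Function.Injective.of_comp h1
  have htf : Module.IsTorsionFree κ[X] D := by
    have : FaithfulSMul κ[X] D := (faithfulSMul_iff_algebraMap_injective _ _).2 hinj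
    infer_instance
  rw [← IsFractionRing.finrank_left_eq κ[X] D E]
  set 𝔭 : Ideal κ[X] := Ideal.span {X} with h𝔭
  have hprime : 𝔭.IsPrime := by
    rw [h𝔭, Ideal.span_singleton_prime X_ne_zero]; exact prime_X
  have hX0 : (X : κ[X]) ≠ 0 := X_ne_zero
  have hXD : algebraMap κ[X] D X ≠ 0 := by
    intro h0; exact hX0 (hinj (by rw [h0, map_zero]))
  have hne : 𝔭.map (algebraMap κ[X] D) ≠ ⊥ := by
    rw [h𝔭, Ideal.map_span, Set.image_singleton, Ne, Ideal.span_singleton_eq_bot]
    exact hXD
  have h𝔭0 : 𝔭 ≠ ⊥ := by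
    rw [h𝔭, Ne, Ideal.span_singleton_eq_bot]; exact hX0
  have hmax : 𝔭.IsMaximal := Ring.DimensionLEOne.maximalOfPrime h𝔭0 hprime
  have hfinp : Finite (𝔭.primesOver D) := by
    have := IsDedekindDomain.primesOver_finite 𝔭 D
    exact this
  have := Fintype.ofFinite (𝔭.primesOver D)
  -- the height one prime over `𝔭`
  have hqne : ∀ q : 𝔭.primesOver D, q.1 ≠ ⊥ := by
    rintro ⟨q, hq1, hq2⟩
    exact ne_bot_of_le_ne_bot hne (Ideal.map_le_of_le_comap (q.over_def 𝔭).le)
  let V : 𝔭.primesOver D → HeightOneSpectrum D := fun q => ⟨q.1, q.2.1, hqne q⟩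
  let f : 𝔭.primesOver D → Valuation E ℤᵐ⁰ := fun q => (V q).valuation E
  have hXq : ∀ q : 𝔭.primesOver D, algebraMap κ[X] D X ∈ q.1 := by
    rintro ⟨q, hq1, hq2⟩
    have : (X : κ[X]) ∈ q.under κ[X] := by
      rw [← q.over_def 𝔭]; exact Ideal.mem_span_singleton_self _
    exact this
  have hDle : ∀ (q : 𝔭.primesOver D) (d : D), f q (algebraMap D E d) ≤ 1 := fun q d =>
    (V q).valuation_le_one d
  have hκ1 : ∀ (q : 𝔭.primesOver D) (a : κ), f q (algebraMap κ E a) ≤ 1 := by
    intro q a
    have h1 : algebraMap κ E a = algebraMap D E (algebraMap κ[X] D (algebraMap κ κ[X] a)) := by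
      rw [← IsScalarTower.algebraMap_apply κ[X] D E, ← IsScalarTower.algebraMap_apply κ κ[X] E]
    rw [h1]; exact hDle q _
  have hκ : ∀ (q : 𝔭.primesOver D) (a : κ), a ≠ 0 → f q (algebraMap κ E a) = 1 := by
    intro q a ha
    refine le_antisymm (hκ1 q a) ?_
    have h1 := hκ1 q a⁻¹
    have h2 : f q (algebraMap κ E a) * f q (algebraMap κ E a⁻¹) = 1 := by
      rw [← map_mul, ← map_mul, mul_inv_cancel₀ ha, map_one, map_one]
    rw [← h2]
    exact mul_le_of_le_one_right' h1
  have hmem : ∀ q, f q ∈ zeroPl κ (algebraMap κ[X] E X) := by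
    intro q
    refine ⟨(V q).valuation_surjective E, hκ q, ?_⟩
    rw [IsScalarTower.algebraMap_apply κ[X] D E]
    exact ((V q).valuation_lt_one_iff_mem _).2 (hXq q)
  have hfinj : Function.Injective f := by
    intro q q' h
    apply Subtype.ext
    ext d
    have h1 : d ∈ (V q).asIdeal ↔ d ∈ (V q').asIdeal := by
      rw [← (V q).valuation_lt_one_iff_mem (K := E), ← (V q').valuation_lt_one_iff_mem (K := E)]
      rw [show (V q).valuation E = (V q').valuation E from h]
    exact h1
  have hsurj : ∀ v ∈ zeroPl κ (algebraMap κ[X] E X), ∃ q, f q = v := by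
    rintro v ⟨hv1, hv2, hv3⟩
    have hpol : ∀ p : κ[X], v (algebraMap κ[X] E p) ≤ 1 := by
      intro p
      induction p using Polynomial.induction_on' with
      | add p q hp hq => rw [map_add]; exact (v.map_add_le hp hq)
      | monomial n a =>
        rw [← C_mul_X_pow_eq_monomial, map_mul, map_mul, map_pow, map_pow]
        refine mul_le_one' ?_ (pow_le_one' hv3.le _)
        rw [← Polynomial.algebraMap_eq, ← IsScalarTower.algebraMap_apply κ κ[X] E]
        by_cases ha : a = 0
        · rw [ha, map_zero, map_zero]; exact zero_le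
        · exact (hv2 a ha).le
    have hDv : ∀ d : D, v (algebraMap D E d) ≤ 1 := by
      intro d
      obtain ⟨p, hp1, hp2⟩ := d.2
      let φ : κ[X] →+* v.integer := (algebraMap κ[X] E).codRestrict v.integer hpol
      have hint : IsIntegral v.integer (d : E) := by
        refine ⟨p.map φ, hp1.map φ, ?_⟩
        rw [Polynomial.eval₂_map]
        exact hp2
      exact (Valuation.integer.integers v).mem_of_integral hint
    let Q : Ideal D := 
      { carrier := {d | v (algebraMap D E d) < 1}
        add_mem' := fun {a b} ha hb => by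
          change v _ < 1
          rw [map_add]; exact v.map_add_lt ha hb
        zero_mem' := by change v _ < 1; rw [map_zero, map_zero]; exact zero_lt_one
        smul_mem' := fun a b hb => by
          change v _ < 1
          rw [smul_eq_mul, map_mul, map_mul]
          exact mul_lt_one_of_nonneg_of_lt_one_right (hDv a) zero_le hb }
    have hQ : Q.IsPrime := by
      constructor
      · intro h
        have : (1 : D) ∈ Q := by rw [h]; trivial
        change v _ < 1 at this
        rw [map_one, map_one] at this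
        exact lt_irrefl _ this
      · intro a b hab
        change v _ < 1 at hab
        rw [map_mul, map_mul] at hab
        by_contra hcon
        push Not at hcon
        obtain ⟨ha, hb⟩ := hcon
        have ha' : v (algebraMap D E a) = 1 := le_antisymm (hDv a) (not_lt.1 ha)
        have hb' : v (algebraMap D E b) = 1 := le_antisymm (hDv b) (not_lt.1 hb)
        rw [ha', hb', one_mul] at hab
        exact lt_irrefl _ hab
    have hXQ : algebraMap κ[X] D X ∈ Q := by
      change v _ < 1
      rwa [← IsScalarTower.algebraMap_apply κ[X] D E]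
    have hover : Q.LiesOver 𝔭 := by
      constructor
      refine (hmax.eq_of_le ?_ ?_)
      · exact (Ideal.IsPrime.under κ[X] Q).ne_top
      · rw [h𝔭, Ideal.span_singleton_le_iff_mem]
        exact hXQ
    refine ⟨⟨Q, hQ, hover⟩, ?_⟩
    refine eq_of_le_one ((V _).valuation_surjective E) hv1 ?_
    intro z hz
    obtain ⟨a, b, hab⟩ := (V ⟨Q, hQ, hover⟩).exists_primeCompl_mul_eq_of_integer z hz
    have hb1 : v (algebraMap D E b) = 1 := le_antisymm (hDv b) (not_lt.1 b.2)
    have h2 : v (z * algebraMap D E b) ≤ 1 := by rw [hab]; exact hDv a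
    rwa [map_mul, hb1, mul_one] at h2
  have hbij : Set.BijOn f Set.univ (zeroPl κ (algebraMap κ[X] E X)) :=
    ⟨fun q _ => hmem q, hfinj.injOn, fun v hv => by
      obtain ⟨q, hq⟩ := hsurj v hv
      exact ⟨q, trivial, hq⟩⟩
  refine ⟨?_, ?_⟩
  · rw [← hbij.image_eq]
    exact Set.finite_univ.image f
  · rw [← finsum_mem_eq_of_bijOn f hbij (f := fun q => -log (f q (algebraMap κ[X] E X)))
      (fun q _ => rfl), finsum_mem_univ, finsum_eq_sum_of_fintype,
      ← Ideal.sum_ramification_inertia_eq_finrank 𝔭 D]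
    push_cast
    refine Finset.sum_congr rfl fun q _ => ?_
    have hmap : 𝔭.map (algebraMap κ[X] D) = Ideal.span {algebraMap κ[X] D X} := by
      rw [h𝔭, Ideal.map_span, Set.image_singleton]
    have hval : f q (algebraMap κ[X] E X) =
        exp (-(multiplicity q.1 (𝔭.map (algebraMap κ[X] D)) : ℕ) : ℤ) := by
      change (V q).valuation E _ = _
      rw [IsScalarTower.algebraMap_apply κ[X] D E, HeightOneSpectrum.valuation_of_algebraMap,
        HeightOneSpectrum.intValuation_eq_exp_neg_multiplicity (V q) hXD, hmap]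
    have hqmax : q.1.IsMaximal := (V q).isMaximal
    have hqp : q.1.IsPrime := q.2.1
    have hqo : q.1.LiesOver 𝔭 := q.2.2
    have hin : q.1.inertiaDeg κ[X] = 1 := by
      rw [Ideal.inertiaDeg_eq_of_isMaximal 𝔭 q.1]
      let _ : Field (κ[X] ⧸ 𝔭) := Ideal.Quotient.field 𝔭
      let _ : Field (D ⧸ q.1) := Ideal.Quotient.field q.1
      have hb : Function.Bijective ((Ideal.Quotient.mk 𝔭).comp (C : κ →+* κ[X])) := by
        refine ⟨RingHom.injective _, fun z => ?_⟩
        obtain ⟨p, rfl⟩ := Ideal.Quotient.mk_surjective z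
        refine ⟨p.coeff 0, ?_⟩
        change Ideal.Quotient.mk 𝔭 (C (p.coeff 0)) = _
        rw [Ideal.Quotient.eq, h𝔭, Ideal.mem_span_singleton, X_dvd_iff]
        simp
      have hac : IsAlgClosed (κ[X] ⧸ 𝔭) :=
        IsAlgClosed.of_ringEquiv κ (κ[X] ⧸ 𝔭) (RingEquiv.ofBijective _ hb)
      have h1 := IsAlgClosed.algebraMap_bijective_of_isIntegral (k := κ[X] ⧸ 𝔭) (K := D ⧸ q.1)
      have h2 := (LinearEquiv.ofBijective (Algebra.linearMap (κ[X] ⧸ 𝔭) (D ⧸ q.1)) h1).finrank_eq
      rw [Module.finrank_self] at h2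
      exact h2.symm
    rw [hval, WithZero.log_exp, neg_neg, hin,
      Ideal.IsDedekindDomain.ramificationIdx_eq_multiplicity 𝔭 q.1 hne]
    push_cast
    ring

open IntermediateField in
/-- **The degree of a function field over `κ(y)` is the number of zeros of `y`.** -/
theorem finrank_eq_sum {κ E : Type*} [Field κ] [CharZero κ] [IsAlgClosed κ] [Field E]
    [Algebra κ E] {y : E} (hy : Transcendental κ y) [FiniteDimensional κ⟮y⟯ E] :
    (zeroPl κ y).Finite ∧ (Module.finrank κ⟮y⟯ E : ℤ) = ∑ᶠ v ∈ zeroPl κ y, -log (v y) := by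
  let algE : Algebra κ[X] E := (Polynomial.aeval y).toAlgebra
  have hmapE : ∀ q : κ[X], algebraMap κ[X] E q = Polynomial.aeval y q := fun q => rfl
  have hX : algebraMap κ[X] E X = y := by rw [hmapE, Polynomial.aeval_X]
  have htow : IsScalarTower κ κ[X] E := IsScalarTower.of_algebraMap_eq fun a => by
    rw [hmapE, Polynomial.algebraMap_eq, Polynomial.aeval_C]
  have hinj : Function.Injective (algebraMap κ[X] E) := transcendental_iff_injective.1 hy
  have hfs : FaithfulSMul κ[X] E := by
    rw [faithfulSMul_iff_algebraMap_injective]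
    exact hinj
  have hmemK : ∀ q : κ[X], Polynomial.aeval y q ∈ κ⟮y⟯ := fun q =>
    IntermediateField.algebra_adjoin_le_adjoin κ _ (Polynomial.aeval_mem_adjoin_singleton κ y)
  let algK : Algebra κ[X] κ⟮y⟯ := 
    ((Polynomial.aeval y).toRingHom.codRestrict κ⟮y⟯.toSubring hmemK : κ[X] →+* κ⟮y⟯).toAlgebra
  have htow2 : IsScalarTower κ[X] κ⟮y⟯ E := IsScalarTower.of_algebraMap_eq fun q => rfl
  have hfsK : FaithfulSMul κ[X] κ⟮y⟯ := by
    rw [faithfulSMul_iff_algebraMap_injective]
    have h1 := hinj
    rw [IsScalarTower.algebraMap_eq κ[X] κ⟮y⟯ E, RingHom.coe_comp] at h1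
    exact Function.Injective.of_comp h1
  have hfrac : IsFractionRing κ[X] κ⟮y⟯ := by
    refine IsFractionRing.of_field _ _ fun z => ?_
    obtain ⟨p, q, h⟩ := (IntermediateField.mem_adjoin_simple_iff κ z.1).1 z.2
    exact ⟨p, q, Subtype.ext h⟩
  have hrank : Module.finrank κ⟮y⟯ E = Module.finrank κ[X] E :=
    IsFractionRing.finrank_right_eq κ[X] κ⟮y⟯ E
  have hfd : FiniteDimensional (FractionRing κ[X]) E := by
    have h1 : Module.rank κ⟮y⟯ E = Module.rank κ[X] E :=
      IsFractionRing.rank_right_eq κ[X] κ⟮y⟯ E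
    have h2 : Module.rank (FractionRing κ[X]) E = Module.rank κ[X] E :=
      IsFractionRing.rank_right_eq κ[X] (FractionRing κ[X]) E
    have h3 : Module.rank κ⟮y⟯ E < Cardinal.aleph0 := Module.rank_lt_aleph0 _ _
    rw [h1, ← h2] at h3
    exact Module.rank_lt_aleph0_iff.1 h3
  have h := rank_eq_sum (κ := κ) (E := E)
  rw [hX] at h
  rw [hrank]
  exact h

end Pool.Agent.CurveDeg
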