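import Pool.Agent.CurveDeg.Dim
import Pool.Agent.CurveDeg.StarFinal
import Pool.Agent.CurveDeg.Multi.PlaceClosed
import Pool.Agent.CurveDeg.Multi.Embed

/-!
Reduction to special forms over countable fields.
-/

set_option autoImplicit false

namespace Pool.Agent.CurveDeg

open MvPolynomial

/-- There are special forms over a countable field, of degrees `d i`, such that the degree of
every curve on their zero set is divisible by `M`. -/
def HasSpecial (n r : ℕ) (d : Fin r → ℕ) (M : ℕ) : Prop :=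
  ∃ (K₀ : Type) (_ : Field K₀) (_ : CharZero K₀) (_ : Countable K₀)
    (g : Fin r → MvPolynomial (Fin (n + r + 1)) K₀),
    (∀ i, g i ∈ homogeneousSubmodule (Fin (n + r + 1)) K₀ (d i)) ∧
    ∀ (κ : Type) [Field κ] [IsAlgClosed κ] [CharZero κ] [Algebra K₀ κ]
      (P : Ideal (MvPolynomial (Fin (n + r + 1)) κ)), Homog P → P.IsPrime →
      (∀ i, map (algebraMap K₀ κ) (g i) ∈ P) → ∀ e : ℤ, EvAffine (hilb P) e → (M : ℤ) ∣ e

/-- The bad polynomials for one modulus. -/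
lemma exists_bad_special {n r : ℕ} (d : Fin r → ℕ) {M : ℕ} (h : HasSpecial n r d M) :
    ∃ bad : ℕ → MvPolynomial (Σ i : Fin r, Mon (Fin (n + r + 1)) (d i)) ℂ, (∀ j, bad j ≠ 0) ∧
      ∀ f : Fin r → MvPolynomial (Fin (n + r + 1)) ℂ,
        (∀ i, f i ∈ homogeneousSubmodule (Fin (n + r + 1)) ℂ (d i)) →
        (∀ j, eval (fun x => coeff x.2.1 (f x.1)) (bad j) ≠ 0) →
        ∀ I : Ideal (MvPolynomial (Fin (n + r + 1)) ℂ), Homog I → (∀ i, f i ∈ I) →
        ringKrullDim (MvPolynomial (Fin (n + r + 1)) ℂ ⧸ I) ≤ 2 →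
        ∀ e : ℤ, EvAffine (hilb I) e → (M : ℤ) ∣ e := by
  obtain ⟨K₀, _, _, _, g, hg, hgP⟩ := h
  obtain ⟨φ⟩ := exists_embedding K₀
  let _ : Algebra K₀ ℂ := φ.toAlgebra
  obtain ⟨bad, hbad0, hbad⟩ := exists_bad_over (Σ i : Fin r, Mon (Fin (n + r + 1)) (d i)) K₀
  refine ⟨bad, hbad0, fun f hf hbadf I hI hfI hdim e he => ?_⟩
  obtain ⟨κ, _, _, _, _, I₀, hI₀, hgI, hh⟩ := exists_place_closed d f hf (hbad _ hbadf) g hg I hI hfI
  obtain ⟨C, hC⟩ := growth_two I hI hdim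
  have hhilb : hilb I₀ = hilb I := funext hh
  refine dvd_slope_of_primes (M : ℤ) I₀ hI₀
    ⟨C, fun k => by rw [hhilb]; exact hC k⟩ ?_ e (by rw [hhilb]; exact he)
  intro P hP hPp hle e' he'
  exact hgP κ P hP hPp (fun i => hle (hgI i)) e' he'

/-- **Reduction.** -/
theorem main_of_special (n r : ℕ) (d : Fin r → ℕ) :
    ∃ bad : ℕ → MvPolynomial (Σ i : Fin r, {m : Fin (n + r + 1) →₀ ℕ // m.degree = d i}) ℂ,
      (∀ j, bad j ≠ 0) ∧
      ∀ f : Fin r → MvPolynomial (Fin (n + r + 1)) ℂ,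
        (∀ i, f i ∈ homogeneousSubmodule (Fin (n + r + 1)) ℂ (d i)) →
        (∀ j, eval (fun x => coeff x.2.1 (f x.1)) (bad j) ≠ 0) →
        ∀ I : Ideal (MvPolynomial (Fin (n + r + 1)) ℂ), Homog I → I.IsPrime →
          ringKrullDim (MvPolynomial (Fin (n + r + 1)) ℂ ⧸ I) = 2 →
          (∀ i, f i ∈ I) →
          ∃ e : ℕ, (∃ K : ℕ, ∀ k : ℕ, K ≤ k → hilb I (k + 1) = hilb I k + e) ∧
            ∀ M : ℕ, HasSpecial n r d M → M ∣ e := by
  classical
  have hex : ∀ M : ℕ, ∃ bad : ℕ → MvPolynomial (Σ i : Fin r, Mon (Fin (n + r + 1)) (d i)) ℂ,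
      (∀ j, bad j ≠ 0) ∧ (HasSpecial n r d M →
      ∀ f : Fin r → MvPolynomial (Fin (n + r + 1)) ℂ,
        (∀ i, f i ∈ homogeneousSubmodule (Fin (n + r + 1)) ℂ (d i)) →
        (∀ j, eval (fun x => coeff x.2.1 (f x.1)) (bad j) ≠ 0) →
        ∀ I : Ideal (MvPolynomial (Fin (n + r + 1)) ℂ), Homog I → (∀ i, f i ∈ I) →
        ringKrullDim (MvPolynomial (Fin (n + r + 1)) ℂ ⧸ I) ≤ 2 →
        ∀ e : ℤ, EvAffine (hilb I) e → (M : ℤ) ∣ e) := by
    intro M
    by_cases h : HasSpecial n r d M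
    · obtain ⟨bad, h1, h2⟩ := exists_bad_special d h
      exact ⟨bad, h1, fun _ => h2⟩
    · exact ⟨fun _ => 1, fun _ => one_ne_zero, fun h' => absurd h' h⟩
  choose bad hbad0 hbad using hex
  refine ⟨fun j => bad (Nat.unpair j).1 (Nat.unpair j).2, fun j => hbad0 _ _, ?_⟩
  intro f hf hbadf I hI hIp hdim hfI
  obtain ⟨e, he⟩ := evAffine_of_growth I hI (growth_two I hI hdim.le)
  have he0 := he.slope_nonneg
  refine ⟨e.toNat, ?_, ?_⟩
  · obtain ⟨c, K, hK⟩ := he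
    refine ⟨K, fun k hk => ?_⟩
    have h1 := hK k hk
    have h2 := hK (k + 1) (by omega)
    have h3 : ((hilb I (k + 1) : ℕ) : ℤ) = (hilb I k : ℤ) + (e.toNat : ℤ) := by
      rw [h2, h1, Int.toNat_of_nonneg he0]; push_cast; ring
    exact_mod_cast h3
  · intro M hM
    have h5 := hbad M hM f hf (fun j => by
      have := hbadf (Nat.pair M j)
      beta_reduce at this
      rw [Nat.unpair_pair] at this
      exact this) I hI hfI hdim.le e he
    have h6 : ((M : ℕ) : ℤ) ∣ (e.toNat : ℤ) := by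
      rw [Int.toNat_of_nonneg he0]; exact h5
    exact_mod_cast h6

end Pool.Agent.CurveDeg
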