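import Pool.Agent.CurveDeg.Param

/-!
Parameters from the rational normal curve: the linear forms `∑ j, c ^ j X (u j)`.
-/

set_option autoImplicit false

namespace Pool.Agent.CurveDeg

open MvPolynomial

variable {σ κ : Type*} [Field κ] {n : ℕ}

/-- A proper subspace of `κ ^ (n + 1)` contains only finitely many points `(1, c, …, c ^ n)`. -/
lemma finite_moment (W : Submodule κ (Fin (n + 1) → κ)) (hW : W ≠ ⊤) :
    {c : κ | (fun j : Fin (n + 1) => c ^ (j : ℕ)) ∈ W}.Finite := by
  obtain ⟨φ, hφ0, hφ⟩ := W.exists_le_ker_of_lt_top (lt_top_iff_ne_top.2 hW)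
  set p : Polynomial κ := ∑ j : Fin (n + 1), Polynomial.C (φ (Pi.single j 1)) * Polynomial.X ^ (j : ℕ)
    with hp
  have hp0 : p ≠ 0 := by
    intro h
    apply hφ0
    refine LinearMap.pi_ext' fun j => LinearMap.ext_ring ?_
    have h1 : p.coeff j = φ (Pi.single j 1) := by
      rw [hp, Polynomial.finsetSum_coeff, Finset.sum_eq_single j]
      · simp
      · intro i _ hij
        rw [Polynomial.coeff_C_mul_X_pow, if_neg]
        intro h2
        exact hij (Fin.ext h2).symm
      · simp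
    rw [h, Polynomial.coeff_zero] at h1
    simpa using h1.symm
  refine (p.rootSet_finite κ).subset ?_
  intro c hc
  rw [Polynomial.mem_rootSet]
  refine ⟨hp0, ?_⟩
  have h1 : φ (fun j : Fin (n + 1) => c ^ (j : ℕ)) = 0 := hφ hc
  rw [Polynomial.coe_aeval_eq_eval, hp, Polynomial.eval_finsetSum]
  rw [← h1]
  conv_rhs => rw [LinearMap.pi_apply_eq_sum_univ φ]
  refine Finset.sum_congr rfl fun j _ => ?_
  simp only [Polynomial.eval_mul, Polynomial.eval_C, Polynomial.eval_pow, Polynomial.eval_X,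
    smul_eq_mul]
  rw [mul_comm]
  congr 2
  funext i
  by_cases h : i = j
  · subst h; simp
  · rw [Pi.single_eq_of_ne h, if_neg (fun h' => h h'.symm)]

/-- The linear form `∑ j, c ^ j X (u j)`. -/
noncomputable def mform (u : Fin (n + 1) → σ) (c : κ) : MvPolynomial σ κ :=
  lin u fun j => c ^ (j : ℕ)

lemma mform_mem_one (u : Fin (n + 1) → σ) (c : κ) :
    mform u c ∈ homogeneousSubmodule σ κ 1 := lin_mem_one u _

lemma aeval_mform {E : Type*} [Field E] [Algebra κ E] (x : σ → E) (u : Fin (n + 1) → σ) (c : κ) :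
    aeval x (mform u c) = ∑ j, x (u j) * algebraMap κ E c ^ (j : ℕ) := by
  rw [mform, lin_apply, map_sum]
  refine Finset.sum_congr rfl fun j _ => ?_
  rw [map_mul, aeval_X, aeval_C, map_pow, mul_comm]

lemma finite_mform_mem (u : Fin (n + 1) → σ) (P : Ideal (MvPolynomial σ κ)) (j₀ : Fin (n + 1))
    (hj₀ : X (u j₀) ∉ P) : {c : κ | mform u c ∈ P}.Finite := by
  refine (finite_moment (badSub u P) (badSub_ne_top u P j₀ hj₀)).subset ?_
  intro c hc
  exact (mem_badSub u P _).2 hc

/-- General members of the family `mform u c` are parameters. -/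
theorem finite_bad_param [Finite σ] (u : Fin (n + 1) → σ) (P : Ideal (MvPolynomial σ κ))
    (hP : Homog P) (hp : P.IsPrime) (e : ℤ) (he : EvAffine (hilb P) e)
    (hw : ∀ Q : Ideal (MvPolynomial σ κ), Homog Q → Q.IsPrime → P ≤ Q →
      (∀ j, X (u j) ∈ Q) → ∀ i, X i ∈ Q) (c' : κ) (hc' : mform u c' ∉ P) :
    {c : κ | ¬ ∃ K, ∀ k, K ≤ k →
      hilb ((P ⊔ Ideal.span {mform u c'}) ⊔ Ideal.span {mform u c}) k = 0}.Finite := by
  classical
  have hstep : ∀ k, hilb P (k + 1) = hilb P k + hilb (P ⊔ Ideal.span {mform u c'}) (k + 1) :=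
    fun k => hilb_prime_step hP hp (mform_mem_one u c') hc' k
  obtain ⟨c₀, K₀, hK₀⟩ := he
  have hb : ∃ C : ℕ, ∀ k, hilb (P ⊔ Ideal.span {mform u c'}) k ≤ C := by
    obtain ⟨C, hC⟩ := hilb_le_of_small (P ⊔ Ideal.span {mform u c'}) (K₀ + 1)
    refine ⟨C + e.toNat, fun k => ?_⟩
    by_cases hk : k < K₀ + 1
    · exact (hC k hk).trans (by omega)
    · obtain ⟨m, rfl⟩ : ∃ m, k = m + 1 := ⟨k - 1, by omega⟩
      have h1 := hK₀ m (by omega)
      have h2 := hK₀ (m + 1) (by omega)
      have h3 := hstep m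
      push_cast at h2
      have h4 : ((hilb (P ⊔ Ideal.span {mform u c'}) (m + 1) : ℕ) : ℤ) = e := by
        have : ((hilb P (m + 1) : ℕ) : ℤ) =
          hilb P m + hilb (P ⊔ Ideal.span {mform u c'}) (m + 1) := by exact_mod_cast h3
        rw [h2, h1] at this
        linarith
      omega
  obtain ⟨F, hF, h⟩ := exists_param u (P ⊔ Ideal.span {mform u c'})
    (hP.sup_span (mform_mem_one u c')) hb
    (fun Q hQ hQp hle hall => hw Q hQ hQp (le_sup_left.trans hle) hall)
  refine Set.Finite.subset (s := ⋃ W ∈ F, {c : κ | (fun j : Fin (n + 1) => c ^ (j : ℕ)) ∈ W}) ?_ ?_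
  · refine F.finite_toSet.biUnion fun W hW => finite_moment W ?_
    rintro rfl
    exact hF hW
  · intro c hc
    by_contra hcon
    simp only [Set.mem_iUnion, not_exists] at hcon
    exact hc (h _ fun W hW hcW => hcon W hW hcW)

end Pool.Agent.CurveDeg
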