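import Pool.Agent.CurveDeg.Curve
import Pool.Agent.CurveDeg.Multi.TwoParams
import Pool.Agent.CurveDeg.Multi.DegSum
import Pool.Agent.CurveDeg.Multi.OneVar

/-!
The degree of a projective curve and the roots of the binary form `∑ j, u j T ^ j S ^ (n - j)` on it.
-/

set_option autoImplicit false

namespace Pool.Agent.CurveDeg

open MvPolynomial

/-- The relation between two parameters that the slope formula needs. -/
lemma param_relation {σ κ E : Type*} [Field κ] [Field E] [Algebra κ E]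
    (P : Ideal (MvPolynomial σ κ)) (hP : Homog P) (x : σ → E)
    (hxP : ∀ k, ∀ s ∈ homogeneousSubmodule σ κ k, aeval x s = 0 ↔ s ∈ P)
    (l l' : MvPolynomial σ κ) (hl : l ∈ homogeneousSubmodule σ κ 1)
    (hl' : l' ∈ homogeneousSubmodule σ κ 1) (hx1 : aeval x l' = 1) [Finite σ] (K : ℕ)
    (hK : ∀ k, K ≤ k → hilb ((P ⊔ Ideal.span {l'}) ⊔ Ideal.span {l}) k = 0) (k : ℕ) (hk : K ≤ k)
    (s : MvPolynomial σ κ) (hs : s ∈ homogeneousSubmodule σ κ (k + 1)) :
    ∃ s₁ ∈ homogeneousSubmodule σ κ k, ∃ s₂ ∈ homogeneousSubmodule σ κ k,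
      aeval x s = aeval x s₁ * aeval x l + aeval x s₂ := by
  have h1 := form_mem_of_hilb_eq_zero (hK (k + 1) (by omega)) hs
  rw [Submodule.mem_sup] at h1
  obtain ⟨y, hy, z, hz, rfl⟩ := h1
  rw [Ideal.mem_span_singleton'] at hz
  obtain ⟨c', rfl⟩ := hz
  rw [Submodule.mem_sup] at hy
  obtain ⟨y, hy, z, hz, rfl⟩ := hy
  rw [Ideal.mem_span_singleton'] at hz
  obtain ⟨c'', rfl⟩ := hz
  refine ⟨homogeneousComponent k c', homogeneousComponent_mem _ _,
    homogeneousComponent k c'', homogeneousComponent_mem _ _, ?_⟩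
  have e1 := homogeneousComponent_of_mem (m := k + 1) hs
  rw [if_pos rfl] at e1
  rw [← e1]
  simp only [map_add]
  rw [mul_comm c'', mul_comm c', homogeneousComponent_mul_form hl',
    homogeneousComponent_mul_form hl, map_mul, map_mul, hx1,
    (hxP (k + 1) _ (homogeneousComponent_mem _ _)).2 (hP y hy (k + 1))]
  ring

open IntermediateField in
/-- The slope as a field degree. -/
theorem slope_eq_finrank {σ : Type} [Finite σ] {κ : Type} [Field κ] [CharZero κ]
    (P : Ideal (MvPolynomial σ κ)) (hP : Homog P) {E : Type} [Field E] [Algebra κ E] (x : σ → E)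
    (hxP : ∀ k, ∀ s ∈ homogeneousSubmodule σ κ k, aeval x s = 0 ↔ s ∈ P)
    (hE : ∀ z : E, ∃ a c : MvPolynomial σ κ, aeval x c ≠ 0 ∧ z = aeval x a / aeval x c)
    (l l' : MvPolynomial σ κ) (hl : l ∈ homogeneousSubmodule σ κ 1)
    (hl' : l' ∈ homogeneousSubmodule σ κ 1) (hx1 : aeval x l' = 1)
    (hK : ∃ K, ∀ k, K ≤ k → hilb ((P ⊔ Ideal.span {l'}) ⊔ Ideal.span {l}) k = 0)
    (e : ℤ) (he : EvAffine (hilb P) e) :
    (¬ Transcendental κ (aeval x l) ∧ e = 0) ∨
    (Transcendental κ (aeval x l) ∧ FiniteDimensional κ⟮aeval x l⟯ E ∧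
      e = Module.finrank κ⟮aeval x l⟯ E) := by
  classical
  obtain ⟨K, hK⟩ := hK
  set b : E := aeval x l with hb
  have hKE : ∀ k, K ≤ k → ∀ s ∈ homogeneousSubmodule σ κ (k + 1),
      ∃ s₁ ∈ homogeneousSubmodule σ κ k, ∃ s₂ ∈ homogeneousSubmodule σ κ k,
        aeval x s = aeval x s₁ * b + aeval x s₂ := fun k hk s hs =>
    param_relation P hP x hxP l l' hl hl' hx1 K hK k hk s hs
  have he' : EvAffine (fun k => Module.finrank κ (VV (κ := κ) x k)) e := by
    have : (fun k => Module.finrank κ (VV (κ := κ) x k)) = hilb P := by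
      funext k
      exact finrank_VV P x k (hxP k)
    rw [this]; exact he
  by_cases hbint : IsIntegral κ b
  · exact Or.inl ⟨fun h => h hbint.isAlgebraic,
      slope_zero_of_isIntegral x _ hl' hx1 b K hKE hbint e he'⟩
  have htr : Transcendental κ b := fun h => hbint h.isIntegral
  right
  let algE : Algebra (Polynomial κ) E := (Polynomial.aeval b).toAlgebra
  have hmapE : ∀ q : Polynomial κ, algebraMap (Polynomial κ) E q = Polynomial.aeval b q :=
    fun q => rfl
  have : IsScalarTower κ (Polynomial κ) E := IsScalarTower.of_algebraMap_eq fun a => by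
    rw [hmapE, Polynomial.algebraMap_eq, Polynomial.aeval_C]
  have hinj : Function.Injective (algebraMap (Polynomial κ) E) := transcendental_iff_injective.1 htr
  have : FaithfulSMul (Polynomial κ) E := by
    rw [faithfulSMul_iff_algebraMap_injective]
    exact hinj
  obtain ⟨hslope, hint⟩ := slope_eq_rank x l' l hl' hx1
    hl (by rw [hmapE, Polynomial.aeval_X]) K hKE hE e he'
  let := FractionRing.liftAlgebra (Polynomial κ) E
  have hfd := finiteDimensional_of_integral x (fun i => by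
    have := hint (X i); rwa [aeval_X] at this) hE
  have hmemK : ∀ q : Polynomial κ, Polynomial.aeval b q ∈ κ⟮b⟯ := fun q =>
    IntermediateField.algebra_adjoin_le_adjoin κ _ (Polynomial.aeval_mem_adjoin_singleton κ b)
  let algK : Algebra (Polynomial κ) κ⟮b⟯ :=
    ((Polynomial.aeval b).toRingHom.codRestrict κ⟮b⟯.toSubring hmemK :
      Polynomial κ →+* κ⟮b⟯).toAlgebra
  have htow2 : IsScalarTower (Polynomial κ) κ⟮b⟯ E := IsScalarTower.of_algebraMap_eq fun q => rfl
  have hfsK : FaithfulSMul (Polynomial κ) κ⟮b⟯ := by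
    rw [faithfulSMul_iff_algebraMap_injective]
    have h1 := hinj
    rw [IsScalarTower.algebraMap_eq (Polynomial κ) κ⟮b⟯ E, RingHom.coe_comp] at h1
    exact Function.Injective.of_comp h1
  have hfrac : IsFractionRing (Polynomial κ) κ⟮b⟯ := by
    refine IsFractionRing.of_field _ _ fun z => ?_
    obtain ⟨p, q, h⟩ := (IntermediateField.mem_adjoin_simple_iff κ z.1).1 z.2
    exact ⟨p, q, Subtype.ext h⟩
  have hrank : Module.finrank κ⟮b⟯ E = Module.finrank (Polynomial κ) E :=
    IsFractionRing.finrank_right_eq (Polynomial κ) κ⟮b⟯ E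
  refine ⟨htr, ?_, ?_⟩
  · have h1 : Module.rank κ⟮b⟯ E = Module.rank (Polynomial κ) E :=
      IsFractionRing.rank_right_eq (Polynomial κ) κ⟮b⟯ E
    have h2 : Module.rank (FractionRing (Polynomial κ)) E = Module.rank (Polynomial κ) E :=
      IsFractionRing.rank_right_eq (Polynomial κ) (FractionRing (Polynomial κ)) E
    have h3 : Module.rank (FractionRing (Polynomial κ)) E < Cardinal.aleph0 :=
      Module.rank_lt_aleph0 _ _
    rw [h2, ← h1] at h3
    exact Module.rank_lt_aleph0_iff.1 h3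
  · rw [hrank]
    exact hslope

open IntermediateField in
/-- **The degree of a curve and the roots of `∑ j, u j T ^ j`.**  If in a finite extension `E₁` of
the function field `E` of the curve, of degree prime to `M`, the binary form splits as
`Λ ∏ i, (Z i T - X i S)`, and `M ∣ [E₁ : κ(X i / Z i)]` for every transcendental `X i / Z i`, then
`M` divides the degree of the curve. -/
theorem dvd_slope_of_roots {σ : Type} [Finite σ] {κ : Type} [Field κ] [CharZero κ] [IsAlgClosed κ]
    {n : ℕ} (u : Fin (n + 1) → σ) (P : Ideal (MvPolynomial σ κ)) (hP : Homog P) (hp : P.IsPrime)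
    (hw : ∀ Q : Ideal (MvPolynomial σ κ), Homog Q → Q.IsPrime → P ≤ Q →
      (∀ j, X (u j) ∈ Q) → ∀ i, X i ∈ Q) (M : ℕ)
    (h : ∀ (E : Type) [Field E] [Algebra κ E] (x : σ → E), OneVar κ E →
      (∀ k, ∀ s ∈ homogeneousSubmodule σ κ k, aeval x s = 0 ↔ s ∈ P) →
      ∃ (E₁ : Type) (_ : Field E₁) (_ : Algebra κ E₁) (_ : Algebra E E₁)
        (_ : IsScalarTower κ E E₁) (_ : FiniteDimensional E E₁),
        Nat.Coprime M (Module.finrank E E₁) ∧
        ∃ (Xr Zr : Fin n → E₁) (Λ : E₁),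
          (∀ c : κ, ∑ j, algebraMap E E₁ (x (u j)) * algebraMap κ E₁ c ^ (j : ℕ) =
            Λ * ∏ i, (Zr i * algebraMap κ E₁ c - Xr i)) ∧
          ∀ i, Zr i ≠ 0 → Transcendental κ (Xr i / Zr i) →
            M ∣ Module.finrank κ⟮Xr i / Zr i⟯ E₁)
    (e : ℤ) (he : EvAffine (hilb P) e) : (M : ℤ) ∣ e := by
  classical
  have hinf : Infinite κ := inferInstance
  by_cases hall : ∀ j, X (u j) ∈ P
  · have h1 : e = 0 := by
      refine evAffine_bounded he (C := hilb P 0) fun k => ?_
      rcases Nat.eq_zero_or_pos k with h | h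
      · rw [h]
      · rw [hilb_eq_zero_of_vars (hw P hP hp le_rfl hall) h]; exact Nat.zero_le _
    rw [h1]; exact dvd_zero _
  push Not at hall
  obtain ⟨j₀, hj₀⟩ := hall
  obtain ⟨c', hc'⟩ := (finite_mform_mem u P j₀ hj₀).exists_notMem
  change mform u c' ∉ P at hc'
  have hfb := finite_bad_param u P hP hp e he hw c' hc'
  obtain ⟨c₁, hc₁⟩ := hfb.exists_notMem
  rw [Set.mem_ofPred_eq, not_not] at hc₁
  obtain ⟨E, _, _, x, hx1, hxP, hE⟩ := exists_field P hp (mform u c') (mform_mem_one u c') hc'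
  rcases slope_eq_finrank P hP x hxP hE (mform u c₁) (mform u c') (mform_mem_one u c₁)
    (mform_mem_one u c') hx1 hc₁ e he with ⟨_, h0⟩ | ⟨hb₁, hfd₁, _⟩
  · rw [h0]; exact dvd_zero _
  have hone : OneVar κ E := OneVar.of_finite (aeval x (mform u c₁) : E)
  obtain ⟨E₁, _, _, _, _, _, hcop, Xr, Zr, Λ, hsplit, hdvd⟩ := h E x hone hxP
  have hone₁ : OneVar κ E₁ := hone.ext
  have hfin₁ : ∀ y : E₁, Transcendental κ y → FiniteDimensional κ⟮y⟯ E₁ := fun y hy =>
    hone₁.finite hy
  -- the finite roots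
  let ι := {i : Fin n // Zr i ≠ 0}
  let R : ι → E₁ := fun i => Xr i.1 / Zr i.1
  have hmap : ∀ c : κ, algebraMap E E₁ (aeval x (mform u c)) =
      Λ * ∏ i, (Zr i * algebraMap κ E₁ c - Xr i) := by
    intro c
    rw [← hsplit c, aeval_mform, map_sum]
    refine Finset.sum_congr rfl fun j _ => ?_
    rw [map_mul, map_pow, ← IsScalarTower.algebraMap_apply κ E E₁]
  have hone' : Λ * ∏ i, (Zr i * algebraMap κ E₁ c' - Xr i) = 1 := by
    rw [← hmap c', hx1, map_one]
  have hprod0 : ∏ i, (Zr i * algebraMap κ E₁ c' - Xr i) ≠ 0 := by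
    intro h0
    rw [h0, mul_zero] at hone'
    exact zero_ne_one hone'
  have hfac0 : ∀ i, Zr i * algebraMap κ E₁ c' - Xr i ≠ 0 := fun i =>
    Finset.prod_ne_zero_iff.1 hprod0 i (Finset.mem_univ i)
  have hR' : ∀ i : ι, algebraMap κ E₁ c' - R i ≠ 0 := by
    intro i h0
    apply hfac0 i.1
    have h1 : Xr i.1 = Zr i.1 * R i := by
      simp only [R]
      field_simp [i.2]
    rw [h1, ← mul_sub, h0, mul_zero]
  -- choose the second parameter
  have hbad2 := finite_bad hfin₁ R c' hR'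
  have hbad3 : {c : κ | ∃ i, algebraMap κ E₁ c - R i = 0}.Finite := by
    have : {c : κ | ∃ i, algebraMap κ E₁ c - R i = 0} ⊆
        ⋃ i : ι, {c : κ | algebraMap κ E₁ c - R i = 0} := by
      rintro c ⟨i, hi⟩
      exact Set.mem_iUnion.2 ⟨i, hi⟩
    refine Set.Finite.subset (Set.finite_iUnion fun i => ?_) this
    refine Set.Subsingleton.finite ?_
    rintro c hc d hd
    apply (algebraMap κ E₁).injective
    rw [Set.mem_ofPred_eq, sub_eq_zero] at hc hd
    rw [hc, hd]
  obtain ⟨c, hc⟩ := ((hfb.union hbad2).union hbad3).exists_notMem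
  rw [Set.mem_union, Set.mem_union, not_or, not_or] at hc
  obtain ⟨⟨hcp, hcb⟩, hc0⟩ := hc
  rw [Set.mem_ofPred_eq, not_not] at hcp
  have hR : ∀ i : ι, algebraMap κ E₁ c - R i ≠ 0 := fun i h0 => hc0 ⟨i, h0⟩
  rcases slope_eq_finrank P hP x hxP hE (mform u c) (mform u c') (mform_mem_one u c)
    (mform_mem_one u c') hx1 hcp e he with ⟨_, h0⟩ | ⟨hb, hfd, heq⟩
  · rw [h0]; exact dvd_zero _
  set b : E := aeval x (mform u c) with hbdef
  have hb₂ : algebraMap E E₁ b = ∏ i : ι, (algebraMap κ E₁ c - R i) / (algebraMap κ E₁ c' - R i) := by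
    have h1 : algebraMap E E₁ b =
        ∏ i, (Zr i * algebraMap κ E₁ c - Xr i) / (Zr i * algebraMap κ E₁ c' - Xr i) := by
      rw [hmap c, Finset.prod_div_distrib, eq_div_iff hprod0]
      calc (Λ * ∏ i, (Zr i * algebraMap κ E₁ c - Xr i)) *
            ∏ i, (Zr i * algebraMap κ E₁ c' - Xr i)
          = (∏ i, (Zr i * algebraMap κ E₁ c - Xr i)) *
            (Λ * ∏ i, (Zr i * algebraMap κ E₁ c' - Xr i)) := by ring
        _ = _ := by rw [hone', mul_one]
    rw [h1]
    have h2 : ∀ i, i ∉ Finset.univ.filter (fun i => Zr i ≠ 0) →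
        (Zr i * algebraMap κ E₁ c - Xr i) / (Zr i * algebraMap κ E₁ c' - Xr i) = 1 := by
      intro i hi
      rw [Finset.mem_filter, not_and] at hi
      have h3 : Zr i = 0 := not_not.1 (hi (Finset.mem_univ i))
      have h4 := hfac0 i
      rw [h3, zero_mul, zero_sub] at h4 ⊢
      rw [zero_mul, zero_sub, div_self h4]
    rw [← Finset.prod_subset (Finset.subset_univ (Finset.univ.filter fun i => Zr i ≠ 0))
      fun i _ hi => h2 i hi, ← Finset.prod_subtype_eq_prod_filter]
    refine Finset.prod_congr (by ext; simp) fun i _ => ?_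
    have h5 : Xr i.1 = Zr i.1 * R i := by
      simp only [R]
      field_simp [i.2]
    rw [h5, ← mul_sub, ← mul_sub, mul_div_mul_left _ _ i.2]
  have hbt : Transcendental κ (algebraMap E E₁ b) :=
    (transcendental_algebraMap_iff (algebraMap E E₁).injective).2 hb
  rw [hb₂] at hbt
  have hsum := finrank_prod hfin₁ R c c' hR hR'
    (fun i j v hv h1 h2 => hcb ⟨i, j, v, hv, h1, h2⟩) hbt
  rw [← hb₂] at hsum
  have hM : (M : ℤ) ∣ (Module.finrank κ⟮algebraMap E E₁ b⟯ E₁ : ℤ) := by
    rw [hsum]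
    refine Finset.dvd_sum fun i _ => ?_
    split_ifs with ht
    · exact_mod_cast hdvd i.1 i.2 ht
    · exact dvd_zero _
  -- the tower
  have htower : Module.finrank κ⟮algebraMap E E₁ b⟯ E₁ =
      Module.finrank κ⟮b⟯ E * Module.finrank E E₁ := by
    rw [Module.finrank_mul_finrank κ⟮b⟯ E E₁]
    have hmapb : κ⟮b⟯.map (IsScalarTower.toAlgHom κ E E₁) = κ⟮algebraMap E E₁ b⟯ := by
      rw [adjoin_map, Set.image_singleton]
      rfl
    let ε : κ⟮b⟯ ≃ₐ[κ] κ⟮algebraMap E E₁ b⟯ :=
      (κ⟮b⟯.equivMap (IsScalarTower.toAlgHom κ E E₁)).trans (equivOfEq hmapb)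
    exact (Algebra.finrank_eq_of_equiv_equiv ε.toRingEquiv (RingEquiv.refl E₁) (by
      ext z
      rfl)).symm
  rw [htower] at hM
  have hM' : M ∣ Module.finrank κ⟮b⟯ E * Module.finrank E E₁ := by exact_mod_cast hM
  rw [heq]
  exact_mod_cast hcop.dvd_of_dvd_mul_right hM'

end Pool.Agent.CurveDeg
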